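import Pool.Agent.Helper80.HD.GoalsC

/-!
# Packet LIM: regular growth
-/

set_option autoImplicit false

open Filter Topology

noncomputable section

namespace Pool.Agent.Helper5.HD

open Pool.Agent.Helper80.HD

/-- gaps around a point outside of a finite set -/
theorem gap_at {M : Set ℝ} (hM : M.Finite) {x a b : ℝ} (hx : x ∉ M) (ha : a < x) (hb : x < b) :
    ∃ ρ₁ ρ₂, a < ρ₁ ∧ ρ₁ < x ∧ x < ρ₂ ∧ ρ₂ < b ∧ ∀ m ∈ M, m < ρ₁ ∨ ρ₂ < m := by
  have h1 : Mᶜ ∩ Set.Ioo a b ∈ 𝓝 x :=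
    inter_mem (hM.isClosed.isOpen_compl.mem_nhds hx) (Ioo_mem_nhds ha hb)
  obtain ⟨ε, hε, h2⟩ := Metric.mem_nhds_iff.1 h1
  have h3 : ∀ y, |y - x| < ε → y ∉ M ∧ a < y ∧ y < b := by
    intro y hy
    have := h2 (show y ∈ Metric.ball x ε by rwa [Metric.mem_ball, Real.dist_eq])
    exact ⟨this.1, this.2.1, this.2.2⟩
  have h4 := h3 (x - ε / 2) (by rw [show x - ε / 2 - x = -(ε / 2) by ring, abs_neg, abs_of_pos (by positivity)]; linarith)
  have h5 := h3 (x + ε / 2) (by rw [show x + ε / 2 - x = ε / 2 by ring, abs_of_pos (by positivity)]; linarith)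
  refine ⟨x - ε / 2, x + ε / 2, h4.2.1, by linarith, by linarith, h5.2.2, fun m hm => ?_⟩
  by_contra h
  rw [not_or, not_lt, not_lt] at h
  exact (h3 m (by rw [abs_lt]; constructor <;> linarith)).1 hm

theorem gap_in {M : Set ℝ} (hM : M.Finite) {a b : ℝ} (hab : a < b) :
    ∃ ρ₁ ρ₂, a < ρ₁ ∧ ρ₁ < ρ₂ ∧ ρ₂ < b ∧ ∀ m ∈ M, m < ρ₁ ∨ ρ₂ < m := by
  have h1 : (Set.Ioo a b).Infinite := Set.Ioo_infinite hab
  obtain ⟨x, hx, hxM⟩ := (h1.sdiff hM).nonempty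
  obtain ⟨ρ₁, ρ₂, h2, h3, h4, h5, h6⟩ := gap_at hM hxM hx.1 hx.2
  exact ⟨ρ₁, ρ₂, h2, h3.trans h4, h5, h6⟩

theorem norm_mulVec_bound {ι : Type} [Fintype ι] (A : Matrix ι ι ℝ) :
    ∃ a : ℝ, 0 ≤ a ∧ ∀ v : ι → ℝ, ‖A.mulVec v‖ ≤ a * ‖v‖ := by
  refine ⟨∑ i, ∑ j, |A i j|, Finset.sum_nonneg fun i _ => Finset.sum_nonneg fun j _ => abs_nonneg _,
    fun v => ?_⟩
  have h0 : 0 ≤ (∑ i, ∑ j, |A i j|) * ‖v‖ :=
    mul_nonneg (Finset.sum_nonneg fun i _ => Finset.sum_nonneg fun j _ => abs_nonneg _)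
      (norm_nonneg _)
  rw [pi_norm_le_iff_of_nonneg h0]
  intro i
  rw [Real.norm_eq_abs, Matrix.mulVec, dotProduct]
  calc |∑ j, A i j * v j| ≤ ∑ j, |A i j * v j| := Finset.abs_sum_le_sum_abs _ _
    _ ≤ ∑ j, |A i j| * ‖v‖ := by
        refine Finset.sum_le_sum fun j _ => ?_
        rw [abs_mul]
        exact mul_le_mul_of_nonneg_left (norm_le_pi_norm v j) (abs_nonneg _)
    _ = (∑ j, |A i j|) * ‖v‖ := by rw [Finset.sum_mul]
    _ ≤ (∑ i, ∑ j, |A i j|) * ‖v‖ := by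
        refine mul_le_mul_of_nonneg_right ?_ (norm_nonneg _)
        exact Finset.single_le_sum (f := fun i => ∑ j, |A i j|)
          (fun i _ => Finset.sum_nonneg fun j _ => abs_nonneg _) (Finset.mem_univ i)

theorem norm_ofReal_pi {ι : Type} [Fintype ι] (v : ι → ℝ) : ‖fun i => ((v i : ℝ) : ℂ)‖ = ‖v‖ := by
  refine le_antisymm ?_ ?_
  · rw [pi_norm_le_iff_of_nonneg (norm_nonneg _)]
    intro i
    rw [Complex.norm_real]
    exact norm_le_pi_norm v i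
  · rw [pi_norm_le_iff_of_nonneg (norm_nonneg _)]
    intro i
    have := norm_le_pi_norm (fun i => ((v i : ℝ) : ℂ)) i
    simpa using this

/-- the eigenvalues of a rational matrix are algebraic -/
theorem eig_algebraic {ι : Type} [Fintype ι] [DecidableEq ι] (A : Matrix ι ι ℚ) (z : ℂ)
    (h : Module.End.HasEigenvalue (Matrix.toLin' (A.map (algebraMap ℚ ℂ))) z) :
    IsAlgebraic ℚ z := by
  rw [Module.End.hasEigenvalue_iff_isRoot_charpoly, Matrix.charpoly_toLin', Matrix.charpoly_map] at h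
  refine ⟨A.charpoly, A.charpoly_monic.ne_zero, ?_⟩
  rw [Polynomial.aeval_def, ← Polynomial.eval_map]
  exact h

theorem norm_algebraic {z : ℂ} (h : IsAlgebraic ℚ z) : IsAlgebraic ℚ ‖z‖ := by
  have h1 : IsAlgebraic ℚ ((starRingEnd ℂ) z) := by
    have := h.algHom ((Complex.conjAe.toAlgHom.restrictScalars ℚ : ℂ →ₐ[ℚ] ℂ))
    exact this
  have h2 : IsAlgebraic ℚ (z * (starRingEnd ℂ) z) := h.mul h1
  rw [Complex.mul_conj'] at h2
  have h3 : IsAlgebraic ℚ ((‖z‖ : ℝ) : ℂ) := by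
    refine IsAlgebraic.of_pow (n := 2) (by norm_num) ?_
    exact h2
  exact (isAlgebraic_algebraMap_iff (R := ℚ) (S := ℝ) (A := ℂ) Complex.ofReal_injective).1 h3

theorem const_rpow_tendsto {c : ℝ} (hc : 0 < c) (ρ : ℝ) :
    Tendsto (fun n : ℕ => c ^ (1 / (n : ℝ)) * ρ) atTop (𝓝 ρ) := by
  have h1 : Tendsto (fun n : ℕ => c ^ (1 / (n : ℝ))) atTop (𝓝 (c ^ (0 : ℝ))) :=
    tendsto_const_nhds.rpow tendsto_one_div_atTop_nhds_zero_nat (Or.inl hc.ne')
  rw [Real.rpow_zero] at h1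
  simpa using h1.mul_const ρ

theorem root_pow {c ρ : ℝ} (hc : 0 ≤ c) (hρ : 0 ≤ ρ) {n : ℕ} (hn : n ≠ 0) :
    (c * ρ ^ n) ^ (1 / (n : ℝ)) = c ^ (1 / (n : ℝ)) * ρ := by
  rw [Real.mul_rpow hc (pow_nonneg hρ n), one_div, Real.pow_rpow_inv_natCast hρ hn]

/-- **LIM.** -/
theorem lim (hD : S_DIC) : S_LIM := by
  intro ι _ _ A w lam hlam hw
  set P : ℝ → Prop := fun ρ => ∃ C : ℝ, ∀ n, ‖w n‖ ≤ C * ρ ^ n with hP
  set T : Set ℝ := {ρ | lam < ρ ∧ P ρ} with hT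
  have hmono : ∀ ρ ρ', 0 ≤ ρ → ρ ≤ ρ' → P ρ → P ρ' := by
    rintro ρ ρ' h0 h1 ⟨C, hC⟩
    have hC0 : 0 ≤ C := by
      have := (norm_nonneg _).trans (hC 0)
      simpa using this
    exact ⟨C, fun n => (hC n).trans (mul_le_mul_of_nonneg_left (pow_le_pow_left₀ h0 h1 n) hC0)⟩
  -- `T` is not empty
  have hTn : T.Nonempty := by
    obtain ⟨a, ha, hA⟩ := norm_mulVec_bound (A.map (algebraMap ℚ ℝ))
    obtain ⟨C₀, hC₀⟩ := hw (lam + 1) (by linarith)
    have hC0 : 0 ≤ C₀ := by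
      have := (norm_nonneg _).trans (hC₀ 0)
      simpa using this
    refine ⟨a + lam + 1, by linarith, ‖w 0‖ + C₀, fun n => ?_⟩
    induction n with
    | zero => simp; exact hC0
    | succ n ih =>
      have h1 : ‖w (n + 1)‖ ≤ ‖w (n + 1) - (A.map (algebraMap ℚ ℝ)).mulVec (w n)‖ +
          ‖(A.map (algebraMap ℚ ℝ)).mulVec (w n)‖ := by
        have := norm_add_le (w (n + 1) - (A.map (algebraMap ℚ ℝ)).mulVec (w n))
          ((A.map (algebraMap ℚ ℝ)).mulVec (w n))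
        rwa [sub_add_cancel] at this
      have h2 := hC₀ n
      have h3 := (hA (w n)).trans (mul_le_mul_of_nonneg_left ih ha)
      have h4 : (lam + 1) ^ n ≤ (a + lam + 1) ^ n := pow_le_pow_left₀ (by linarith) (by linarith) n
      have h5 := mul_le_mul_of_nonneg_left h4 hC0
      have h6 : 0 ≤ (a + lam + 1) ^ n := pow_nonneg (by linarith) n
      have h7 : 0 ≤ ‖w 0‖ * (a + lam + 1) ^ n := mul_nonneg (norm_nonneg _) h6
      have h8 : 0 ≤ C₀ * (a + lam + 1) ^ n := mul_nonneg hC0 h6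
      have h9 : 0 ≤ lam * ((‖w 0‖ + C₀) * (a + lam + 1) ^ n) :=
        mul_nonneg hlam (mul_nonneg (add_nonneg (norm_nonneg _) hC0) h6)
      rw [pow_succ]
      nlinarith
  have hTb : BddBelow T := ⟨lam, fun ρ hρ => hρ.1.le⟩
  set μ := sInf T with hμ
  have hup : ∀ ρ, μ < ρ → P ρ := by
    intro ρ hρ
    obtain ⟨ρ', h1, h2⟩ := exists_lt_of_csInf_lt hTn hρ
    exact hmono ρ' ρ (hlam.trans h1.1.le) h2.le h1.2
  have hlo : ∀ ρ, lam < ρ → ρ < μ → ¬ P ρ := fun ρ h1 h2 h3 =>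
    absurd (csInf_le hTb (show ρ ∈ T from ⟨h1, h3⟩)) (not_le.2 h2)
  by_cases hcase : μ ≤ lam
  · exact Or.inl fun ρ hρ => hup ρ (hcase.trans_lt hρ)
  rw [not_le] at hcase
  right
  -- the moduli of the eigenvalues
  set AC : Matrix ι ι ℂ := A.map (algebraMap ℚ ℂ) with hAC
  set M : Set ℝ := (fun z : ℂ => ‖z‖) '' {z | Module.End.HasEigenvalue (Matrix.toLin' AC) z} with hM
  have hMf : M.Finite := (Module.End.finite_hasEigenvalue (Matrix.toLin' AC)).image _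
  have hdic : ∀ ρ₁ ρ₂, lam < ρ₁ → ρ₁ < ρ₂ → (∀ m ∈ M, m < ρ₁ ∨ ρ₂ < m) →
      P ρ₁ ∨ ∃ c : ℝ, 0 < c ∧ ∃ n₀, ∀ n, n₀ ≤ n → c * ρ₂ ^ n ≤ ‖w n‖ := by
    intro ρ₁ ρ₂ h1 h2 h3
    obtain ⟨C₀, hC₀⟩ := hw ρ₁ h1
    have h4 := hD ι AC (fun n i => ((w n i : ℝ) : ℂ)) ρ₁ ρ₂ C₀ (hlam.trans_lt h1) h2
      (fun z hz => h3 _ ⟨z, hz, rfl⟩) (fun n => by
        have e : (fun i => ((w (n + 1) i : ℝ) : ℂ)) - AC.mulVec (fun i => ((w n i : ℝ) : ℂ)) =
            fun i => (((w (n + 1) - (A.map (algebraMap ℚ ℝ)).mulVec (w n)) i : ℝ) : ℂ) := by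
          funext i
          simp only [Pi.sub_apply, Complex.ofReal_sub, Matrix.mulVec, dotProduct, hAC,
            Matrix.map_apply, Complex.ofReal_sum, Complex.ofReal_mul, eq_ratCast,
            Complex.ofReal_ratCast]
        rw [e, norm_ofReal_pi]
        exact hC₀ n)
    simp only [norm_ofReal_pi] at h4
    exact h4
  have hμ0 : 0 < μ := hlam.trans_lt hcase
  have hlow : ∀ ρ, lam < ρ → ρ < μ → ∃ c : ℝ, 0 < c ∧ ∃ n₀, ∀ n, n₀ ≤ n → c * ρ ^ n ≤ ‖w n‖ := by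
    intro ρ h1 h2
    obtain ⟨ρ₁, ρ₂, g1, g2, g3, g4⟩ := gap_in hMf h2
    rcases hdic ρ₁ ρ₂ (h1.trans g1) g2 g4 with h | ⟨c, hc, n₀, h⟩
    · exact absurd h (hlo ρ₁ (h1.trans g1) (g2.trans g3))
    · refine ⟨c, hc, n₀, fun n hn => le_trans ?_ (h n hn)⟩
      exact mul_le_mul_of_nonneg_left
        (pow_le_pow_left₀ (hlam.trans h1.le) (g1.trans g2).le n) hc.le
  refine ⟨μ, hcase, ?_, ?_⟩
  · -- `μ` is the modulus of an eigenvalue
    have hμM : μ ∈ M := by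
      by_contra hn
      obtain ⟨ρ₁, ρ₂, g1, g2, g3, -, g5⟩ := gap_at hMf hn hcase (lt_add_one μ)
      rcases hdic ρ₁ ρ₂ g1 (g2.trans g3) g5 with h | ⟨c, hc, n₀, h⟩
      · exact hlo ρ₁ g1 g2 h
      · obtain ⟨ρ', k1, k2⟩ := exists_between g3
        obtain ⟨C, hC⟩ := hup ρ' k1
        have hρ' : 0 < ρ' := hμ0.trans k1
        have hr : 1 < ρ₂ / ρ' := (one_lt_div hρ').2 k2
        obtain ⟨n, hn⟩ := pow_unbounded_of_one_lt (C / c) hr
        have h1 := h (max n n₀) (le_max_right _ _)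
        have h2 := hC (max n n₀)
        have h3 : C / c < (ρ₂ / ρ') ^ (max n n₀) :=
          hn.trans_le (pow_le_pow_right₀ hr.le (le_max_left _ _))
        rw [div_pow, div_lt_div_iff₀ hc (pow_pos hρ' _)] at h3
        linarith
    obtain ⟨z, hz, hzμ⟩ := hμM
    rw [← hzμ]
    exact norm_algebraic (eig_algebraic A z hz)
  · rw [tendsto_order]
    constructor
    · intro b hb
      obtain ⟨ρ, k1, k2⟩ := exists_between (max_lt hb hcase)
      have kb : b < ρ := (le_max_left _ _).trans_lt k1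
      have kl : lam < ρ := (le_max_right _ _).trans_lt k1
      obtain ⟨c, hc, n₀, h⟩ := hlow ρ kl k2
      have h1 := (tendsto_order.1 (const_rpow_tendsto hc ρ)).1 b kb
      filter_upwards [h1, eventually_ge_atTop n₀, eventually_ne_atTop 0] with n hn1 hn2 hn3
      rw [← root_pow hc.le (hlam.trans kl.le) hn3] at hn1
      refine hn1.trans_le ?_
      exact Real.rpow_le_rpow (mul_nonneg hc.le (pow_nonneg (hlam.trans kl.le) n)) (h n hn2)
        (by positivity)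
    · intro b hb
      obtain ⟨ρ, k1, k2⟩ := exists_between hb
      obtain ⟨C, hC⟩ := hup ρ k1
      have hρ : 0 < ρ := hμ0.trans k1
      have hC' : (0 : ℝ) < max C 1 := lt_max_of_lt_right one_pos
      have h1 := (tendsto_order.1 (const_rpow_tendsto hC' ρ)).2 b k2
      filter_upwards [h1, eventually_ne_atTop 0] with n hn1 hn3
      rw [← root_pow hC'.le hρ.le hn3] at hn1
      refine lt_of_le_of_lt ?_ hn1
      refine Real.rpow_le_rpow (norm_nonneg _) ((hC n).trans ?_) (by positivity)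
      exact mul_le_mul_of_nonneg_right (le_max_left _ _) (pow_nonneg hρ.le n)

end Pool.Agent.Helper5.HD
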